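import Mathlib

/-!
# Project BY: finite étale maps to punctured lines

Pieces (pure algebra). `FE f` says that the ring homomorphism `f` is finite and étale.
-/

set_option autoImplicit false

namespace Pool.Agent.W2helper81.BY

open Polynomial

/-- `f` is finite and étale. -/
def FE {A B : Type} [CommRing A] [CommRing B] (f : A →+* B) : Prop := f.Finite ∧ f.Etale

/-- BEL1 (Belyi's first step, over any field of characteristic zero). Every nonzero `F ∈ K[X]` has a nonconstant
`β ∈ K[X]` which maps all roots of `F` in `L` and all critical points of `β` in `L` to elements of `K`.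

Proof. Strong induction on `natDegree F`. If `F` is constant take `β = X` (no roots; `X' = 1` has no root).
Otherwise let `N = natDegree F ≥ 1` and `F' = derivative F`, of degree `N - 1`, nonzero (characteristic zero). Let
`G = minpoly K (AdjoinRoot.mk F' F)` (`AdjoinRoot F'` is a finite-dimensional `K`-algebra of dimension `N - 1`; if
`F'` is a nonzero constant this algebra is zero, and one can take `G = 1` instead). Then `G ≠ 0`,
`natDegree G ≤ N - 1 < N` (`minpoly.natDegree_le`), and `F' ∣ G.comp F`, so `G(F(z)) = 0` for all roots `z` of `F'`.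
Apply the induction to `G` and get `β₁`; put `β = β₁.comp F`. If `F(z) = 0` then `β(z) = β₁(0) ∈ K`. If `β'(z) = 0`
then `β₁'(F(z)) F'(z) = 0`: either `F'(z) = 0`, so `F(z)` is a root of `G` and `β(z) = β₁(F(z)) ∈ K`, or
`β₁'(F(z)) = 0` and `β(z) = β₁(F(z)) ∈ K`. -/
def P_BEL1 : Prop :=
  ∀ (K L : Type) [Field K] [CharZero K] [Field L] [Algebra K L] (F : K[X]), F ≠ 0 →
    ∃ β : K[X], 0 < β.natDegree ∧
      (∀ z : L, aeval z F = 0 → ∃ c : K, aeval z β = algebraMap K L c) ∧
      ∀ z : L, aeval z (derivative β) = 0 → ∃ c : K, aeval z β = algebraMap K L c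

/-- BEL2 (Belyi's second step). Every finite set of rational numbers has a nonconstant `β ∈ ℚ[X]` which maps it
and all critical points of `β` to `{0, 1}`.

Proof. Show by induction on `card S` that this holds for all finite `S` with `0, 1 ∈ S` (then apply it to
`S ∪ {0, 1}`). If `S = {0, 1}` take `β = X`. Otherwise let `a = min S < b = max S` and `A(x) = (x - a) / (b - a)`; this
maps `S` injectively to a subset of `[0, 1]` which contains `0, 1` and some other element `λ = m / (m + n)` with
natural numbers `m, n ≥ 1`. Let `f = c X ^ m (1 - X) ^ n` with `c = (m + n) ^ (m + n) / (m ^ m n ^ n)`, so that `f(λ) = 1`,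
`f(0) = f(1) = 0` and `f' = c X ^ (m - 1) (1 - X) ^ (n - 1) (m - (m + n) X)`, so all critical points of `f` are
`0`, `1` or `λ` and `f` maps them to `{0, 1}`. The set `S₁ = f(A(S))` contains `0` and `1` and has fewer elements
than `S`. Take `β₁` for `S₁` by induction and `β = β₁ ∘ f ∘ A`. Critical points `z` of `β`: `β₁'(f(A z)) = 0` (fine), or
`f'(A z) = 0`, so `f(A z) ∈ {0, 1} ⊆ S₁` and `β(z) ∈ {0, 1}`. -/
def P_BEL2 : Prop :=
  ∀ S : Finset ℚ, ∃ β : ℚ[X], 0 < β.natDegree ∧ (∀ s ∈ S, β.eval s = 0 ∨ β.eval s = 1) ∧
    ∀ (L : Type) [Field L] [CharZero L] (z : L), aeval z (derivative β) = 0 →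
      aeval z β = 0 ∨ aeval z β = 1

/-- BEL: Belyi's theorem for the line. (Uses BEL1 and BEL2.)

Proof. Take `β₁ ∈ ℚ[X]` from BEL1 for `F` (with `K = ℚ`), and let `S` be the finite set of the rational numbers `c`
with `β₁(z) = c` for some root `z ∈ L` of `F` or of `derivative β₁` (both are nonzero polynomials, so there are
finitely many `z`). Take `β₂` from BEL2 for `S` and `β = β₂.comp β₁`. -/
def P_BEL : Prop :=
  P_BEL1 → P_BEL2 → ∀ (L : Type) [Field L] [CharZero L] (F : ℚ[X]), F ≠ 0 →
    ∃ β : ℚ[X], 0 < β.natDegree ∧ (∀ z : L, aeval z F = 0 → aeval z β = 0 ∨ aeval z β = 1) ∧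
      ∀ z : L, aeval z (derivative β) = 0 → aeval z β = 0 ∨ aeval z β = 1

/-- ROOTS. If each root of `f` in the algebraically closed field `L` is a root of `h` then `f` divides a power of
`h` in `K[X]`.

Proof. Every irreducible factor `q` of `f` has a root `z ∈ L`; `h(z) = 0`, so `q ∣ h` (`q` is associated to the minimal
polynomial of `z`). If `f = u q₁ ⋯ q_n` then `f ∣ h ^ n`. (Induction on the multiset of the factors, or
`UniqueFactorizationMonoid.induction_on_prime`.) -/
def P_ROOTS : Prop :=
  ∀ (K L : Type) [Field K] [Field L] [Algebra K L] [IsAlgClosed L] (f h : K[X]), f ≠ 0 →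
    (∀ z : L, aeval z f = 0 → aeval z h = 0) → ∃ N : ℕ, f ∣ h ^ N

/-- POLY: polynomial maps of the line are finite étale where the derivative is invertible.

Proof. Let `c` be the leading coefficient, a unit of `R`. View `R[X]` as an algebra over `R[X]` by `X ↦ β`. It is
`R[X][Y] / (β(Y) - X)`, and `c⁻¹ (β(Y) - X)` is monic in `Y` of degree `natDegree β > 0`; so it is finite. Localise at
`P`: `Localization.Away (P.comp β)` is the base change to `Localization.Away P`, so it is finite over it. It is
étale, because the derivative `β'(Y)` of `β(Y) - X` with respect to `Y` divides `(P.comp β) ^ N` and so is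
invertible: étale over `R[X]` as a standard étale algebra (`Mathlib.RingTheory.Etale.StandardEtale`), and the map to it
from `Localization.Away P` is étale as well (étale is stable under base change, or:
`RingHom.Etale` of the composition and the localisation is an epimorphism). -/
def P_POLY : Prop :=
  ∀ (R : Type) [CommRing R] (β P V : R[X]) (N : ℕ), IsUnit β.leadingCoeff → 0 < β.natDegree →
    derivative β * V = (P.comp β) ^ N →
    ∃ φ : Localization.Away P →ₐ[R] Localization.Away (P.comp β), FE φ.toRingHom

/-- GEN: generic finite étaleness in characteristic zero.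

Proof. (a) Étale: the étale locus of `B` over `A` (`Mathlib.RingTheory.Etale.Locus`) is open and contains the
generic point of `B`, because `Frac B / Frac A` is a finite extension of fields of characteristic zero, so étale
(separable); so `B_b` is étale over `A` for some `b ≠ 0` in `B`. As `B` is a domain and algebraic over `A`, `b` divides
the image of some `f₁ ≠ 0` in `A`; so `B_{f₁}` is étale over `A`, and over `A_{f₁}`. (b) Finite: the finitely many
generators of `B` over `A` are algebraic over `A`, so they are integral over `A_{f₂}` for some `f₂ ≠ 0` (product of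
leading coefficients). Take `f = f₁ f₂`. -/
def P_GEN : Prop :=
  ∀ (A B : Type) [CommRing A] [IsDomain A] [CharZero A] [CommRing B] [IsDomain B] [Algebra A B],
    Function.Injective (algebraMap A B) → Algebra.FiniteType A B → Algebra.IsAlgebraic A B →
    ∃ f : A, f ≠ 0 ∧ FE (Localization.awayMap (algebraMap A B) f)

/-- LOC: finite étale stays so after a further localisation.

Proof. If `f ∣ a ^ n` then `Localization.Away a` is a localisation of `Localization.Away f` and
`Localization.Away (algebraMap A B a)` is the base change of `Localization.Away (algebraMap A B f)`. Finite and étale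
are stable under base change (`RingHom.finite_isStableUnderBaseChange`, `RingHom.Etale.isStableUnderBaseChange`; or
`RingHom.Finite`/`Etale` `.localizationPreserves`-type lemmas with `IsLocalization.Away`). -/
def P_LOC : Prop :=
  ∀ (A B : Type) [CommRing A] [CommRing B] (ψ : A →+* B) (f a : A) (n : ℕ), f ∣ a ^ n →
    FE (Localization.awayMap ψ f) → FE (Localization.awayMap ψ a)

/-- ISO: `R[X]_h` for `R = M_g`, where `h₀ ∈ M[X]` is `g ^ j h`, is the localisation of `M[X]` at `g h₀`. -/
def P_ISO : Prop :=
  ∀ (k M : Type) [Field k] [CommRing M] [IsDomain M] [Algebra k M] (g : M), g ≠ 0 →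
    ∀ (h : (Localization.Away g)[X]) (h₀ : M[X]) (j : ℕ),
      h₀.map (algebraMap M (Localization.Away g)) = C (algebraMap M (Localization.Away g) g) ^ j * h →
      Nonempty (Localization.Away h ≃ₐ[k] Localization.Away (C g * h₀))

/-- CLEAR: Belyi's first step over `M` after inverting one element `g`. (Uses BEL1 and ROOTS.)

Proof. Let `K = FractionRing M` and `L = AlgebraicClosure K`. BEL1 for the image of `f` gives `β₀ ∈ K[X]`. Let
`s₁, …, s_r` be the distinct elements `c` of `K` with `c = β₀(z)` for some `z ∈ L` with `f(z) = 0` or `β₀'(z) = 0`, and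
`P₀ = ∏ (X - s_i)`. By ROOTS `f U₀ = (P₀ ∘ β₀) ^ N` and `β₀' V₀ = (P₀ ∘ β₀) ^ N` with `U₀, V₀ ∈ K[X]` (one `N` for both).
Choose `g ≠ 0` in `M` such that all coefficients of `β₀, U₀, V₀`, all `s_i`, the inverse of the leading
coefficient of `β₀` and all `1 / (s_i - s_j)` lie in the image of `R = M_g` (product of denominators). The map
`R → K` is injective, so the identities hold in `R[X]`. -/
def P_CLEAR : Prop :=
  P_BEL1 → P_ROOTS → ∀ (M : Type) [CommRing M] [IsDomain M] [CharZero M] (f : M[X]), f ≠ 0 →
    ∃ (g : M), g ≠ 0 ∧ ∃ (β U V : (Localization.Away g)[X]) (r : ℕ) (s : Fin r → Localization.Away g)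
      (N : ℕ), IsUnit β.leadingCoeff ∧ 0 < β.natDegree ∧ (∀ i j, i ≠ j → IsUnit (s i - s j)) ∧
      derivative β * V = ((∏ i, (X - C (s i))).comp β) ^ N ∧
      f.map (algebraMap M (Localization.Away g)) * U = ((∏ i, (X - C (s i))).comp β) ^ N

/-- CURVE: the same over the algebraic numbers, with `s = {0, 1}`. (Uses BEL and ROOTS.)

Proof. Let `F ∈ ℚ[X]` be the product of the minimal polynomials of the roots of `f`. BEL (with `L = k`) gives
`β₀ ∈ ℚ[X]`; let `β` be its image in `k[X]`, `P = X (X - 1)`. All roots of `f` and of `β'` are roots of `P ∘ β`; use ROOTS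
with `K = L = k`, and one `N` for both. -/
def P_CURVE : Prop :=
  P_BEL1 → P_BEL2 → P_BEL → P_ROOTS → ∀ (k : Type) [Field k] [CharZero k] [IsAlgClosed k]
    [Algebra.IsAlgebraic ℚ k] (f : k[X]), f ≠ 0 →
    ∃ (β U V : k[X]) (N : ℕ), IsUnit β.leadingCoeff ∧ 0 < β.natDegree ∧
      derivative β * V = ((X * (X - 1) : k[X]).comp β) ^ N ∧
      f * U = ((X * (X - 1) : k[X]).comp β) ^ N

/-- Smooth affine varieties over `k`. -/
structure Var (k A : Type) [Field k] [CommRing A] [Algebra k A] : Prop where
  dom : IsDomain A
  smooth : Algebra.Smooth k A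

/-- VAR1: principal open subsets. -/
def P_VAR1 : Prop :=
  ∀ (k A : Type) [Field k] [CommRing A] [Algebra k A] (a : A), a ≠ 0 → Var k A →
    Var k (Localization.Away a)

/-- VAR2: the polynomial ring over a smooth affine variety. -/
def P_VAR2 : Prop :=
  ∀ (k A : Type) [Field k] [CommRing A] [Algebra k A], Var k A → Var k A[X]

/-- VAR3: affine spaces. -/
def P_VAR3 : Prop :=
  ∀ (k : Type) [Field k] (m : ℕ), Var k (MvPolynomial (Fin m) k)

/-- BAS: a transcendence basis gives a polynomial ring. (`MvPolynomial.finSuccEquiv` and `IsTranscendenceBasis`.) -/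
def P_BAS : Prop :=
  ∀ (k B : Type) [Field k] [CommRing B] [IsDomain B] [Algebra k B] (m : ℕ) (x : Fin (m + 1) → B),
    IsTranscendenceBasis k x → ∃ ψ : (MvPolynomial (Fin m) k)[X] →ₐ[k] B, Function.Injective ψ ∧
      ∀ b : B, ∃ q : (MvPolynomial (Fin m) k)[X][X], q ≠ 0 ∧ eval₂ ψ.toRingHom b q = 0

end Pool.Agent.W2helper81.BY
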