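import Pool.Agent.W2helper81.BY.Thy

set_option autoImplicit false

namespace Pool.Agent.W2helper81.BY

open Polynomial

variable {k : Type} [Field k]

/-- an element of `R[X]`, `R = M_g`, becomes a polynomial over `M` after multiplication with a power of `g` -/
theorem exists_num {M : Type} [CommRing M] (g : M) (h : (Localization.Away g)[X]) :
    ∃ (h₀ : M[X]) (j : ℕ), h₀.map (algebraMap M (Localization.Away g)) =
      C (algebraMap M (Localization.Away g) g) ^ j * h := by
  obtain ⟨b, hb, hb2⟩ := IsLocalization.integerNormalization_spec (Submonoid.powers g) h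
  obtain ⟨j, hj⟩ := hb
  refine ⟨IsLocalization.integerNormalization (Submonoid.powers g) h, j, ?_⟩
  have hj' : g ^ j = b := hj
  rw [hb2, ← map_pow, ← map_pow, hj', Algebra.smul_def]
  rfl

theorem inj_away {M : Type} [CommRing M] [IsDomain M] {g : M} (hg : g ≠ 0) :
    Function.Injective (algebraMap M (Localization.Away g)) :=
  IsLocalization.injective _ (powers_le_nonZeroDivisors_of_noZeroDivisors hg)

theorem dom_away {M : Type} [CommRing M] [IsDomain M] {g : M} (hg : g ≠ 0) :
    IsDomain (Localization.Away g) :=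
  IsLocalization.isDomain_localization (powers_le_nonZeroDivisors_of_noZeroDivisors hg)

theorem dvd_num {M : Type} [CommRing M] [IsDomain M] {g : M} (hg : g ≠ 0)
    {h : (Localization.Away g)[X]} {h₀ f : M[X]} {j N : ℕ} {U : (Localization.Away g)[X]}
    (hh : h₀.map (algebraMap M (Localization.Away g)) = C (algebraMap M (Localization.Away g) g) ^ j * h)
    (hf : f.map (algebraMap M (Localization.Away g)) * U = h ^ N) :
    ∃ n : ℕ, f ∣ (C g * h₀) ^ n := by
  obtain ⟨U₀, l, hU⟩ := exists_num g U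
  refine ⟨l + N, ?_⟩
  have h1 : (f * U₀).map (algebraMap M (Localization.Away g)) * C (algebraMap M (Localization.Away g) g) ^ (j * N) =
      (C g ^ l * h₀ ^ N).map (algebraMap M (Localization.Away g)) := by
    rw [Polynomial.map_mul, hU, Polynomial.map_mul, Polynomial.map_pow, Polynomial.map_pow, hh,
      Polynomial.map_C, mul_pow, ← pow_mul, ← hf]
    ring
  have h2 : (f * U₀ * C g ^ (j * N)).map (algebraMap M (Localization.Away g)) =
      (C g ^ l * h₀ ^ N).map (algebraMap M (Localization.Away g)) := by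
    rw [Polynomial.map_mul, Polynomial.map_pow, Polynomial.map_C]
    exact h1
  have h3 := Polynomial.map_injective _ (inj_away hg) h2
  have h4 : f ∣ C g ^ l * h₀ ^ N := ⟨U₀ * C g ^ (j * N), by rw [← h3]; ring⟩
  refine h4.trans ?_
  rw [mul_pow, pow_add, pow_add]
  exact ⟨C g ^ N * h₀ ^ l, by ring⟩

theorem prod_ne {R : Type} [CommRing R] [IsDomain R] {r : ℕ} (s : Fin r → R) :
    (∏ i, (X - C (s i)) : R[X]) ≠ 0 :=
  Finset.prod_ne_zero_iff.2 fun i _ => X_sub_C_ne_zero (s i)

theorem comp_ne {R : Type} [CommRing R] [IsDomain R] {r : ℕ} (s : Fin r → R) {β : R[X]}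
    (hβ : 0 < β.natDegree) : (∏ i, (X - C (s i)) : R[X]).comp β ≠ 0 := by
  rw [Polynomial.prod_comp]
  refine Finset.prod_ne_zero_iff.2 fun i _ => ?_
  rw [sub_comp, X_comp, C_comp]
  intro h0
  have h1 : β = C (s i) := sub_eq_zero.1 h0
  rw [h1, natDegree_C] at hβ
  exact lt_irrefl _ hβ

/-- **Dimension `m + 1`.** -/
theorem main_dim [CharZero k] {T : Flat k} (hT : IsFlat T) (b1 : P_BEL1) (ro : P_ROOTS) (po : P_POLY)
    (ge : P_GEN) (lo : P_LOC) (is : P_ISO) (cl : P_CLEAR) (v1 : P_VAR1) (v2 : P_VAR2) (v3 : P_VAR3)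
    (ba : P_BAS) (m : ℕ)
    (h : ∀ g : MvPolynomial (Fin m) k, g ≠ 0 → ∀ (r : ℕ) (s : Fin r → Localization.Away g),
      (∀ i j, i ≠ j → IsUnit (s i - s j)) → Holds T (Punctured s))
    (B : Type) [CommRing B] [Algebra k B] (hB : Var k B) (x : Fin (m + 1) → B)
    (hx : IsTranscendenceBasis k x) : Holds T B := by
  have hBd : IsDomain B := hB.dom
  have hBs : Algebra.Smooth k B := hB.smooth
  have hBf : Algebra.FiniteType k B := inferInstance
  obtain ⟨ψ, hψ, hal⟩ := ba k B m x hx
  let _ : Algebra (MvPolynomial (Fin m) k)[X] B := ψ.toRingHom.toAlgebra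
  have htow : IsScalarTower k (MvPolynomial (Fin m) k)[X] B :=
    IsScalarTower.of_algebraMap_eq' (ψ.comp_algebraMap).symm
  have hft : Algebra.FiniteType (MvPolynomial (Fin m) k)[X] B :=
    Algebra.FiniteType.of_restrictScalars_finiteType k _ B
  have halg : Algebra.IsAlgebraic (MvPolynomial (Fin m) k)[X] B := ⟨fun b => by
    obtain ⟨q, hq, hq0⟩ := hal b
    exact ⟨q, hq, hq0⟩⟩
  obtain ⟨f, hf0, hf⟩ := ge (MvPolynomial (Fin m) k)[X] B hψ hft halg
  obtain ⟨g, hg, β, U, V, r, s, N, hu, hd, hs, hV, hU⟩ := cl b1 ro (MvPolynomial (Fin m) k) f hf0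
  have hR := dom_away hg
  obtain ⟨φ, hφ⟩ := po (Localization.Away g) β _ V N hu hd hV
  obtain ⟨h₀, j, hh⟩ := exists_num g ((∏ i, (X - C (s i))).comp β)
  obtain ⟨e⟩ := is k (MvPolynomial (Fin m) k) g hg _ h₀ j hh
  obtain ⟨n, hn⟩ := dvd_num hg hh hU
  have hh0 : h₀ ≠ 0 := by
    intro h0
    rw [h0, Polynomial.map_zero] at hh
    have h2 := mul_eq_zero.1 hh.symm
    rcases h2 with h2 | h2
    · have h4 : algebraMap _ (Localization.Away g) g = 0 := by
        by_cases hj : j = 0
        · rw [hj, pow_zero] at h2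
          exact absurd h2 one_ne_zero
        · exact C_eq_zero.1 ((pow_eq_zero_iff hj).1 h2)
      exact hg (inj_away hg (by rw [h4, map_zero]))
    · exact comp_ne s hd h2
  have ha : (C g * h₀ : (MvPolynomial (Fin m) k)[X]) ≠ 0 := mul_ne_zero (C_ne_zero.2 hg) hh0
  have hVR : Var k (Localization.Away g) := v1 k _ g hg (v3 k m)
  have hVD : Var k (Punctured s) := v1 k _ _ (prod_ne s) (v2 k _ hVR)
  refine core hT lo v1 (MvPolynomial (Fin m) k)[X] B (Punctured s) ψ hψ hB hVD f (C g * h₀) n ha hn hf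
    ((e : _ →ₐ[k] _).comp (φ.restrictScalars k)) ?_ (h g hg r s hs)
  exact fe_comp hφ (fe_equiv e)

/-- **Curves.** -/
theorem main_curve [CharZero k] [IsAlgClosed k] [Algebra.IsAlgebraic ℚ k] {T : Flat k} (hT : IsFlat T)
    (b1 : P_BEL1) (b2 : P_BEL2) (be : P_BEL) (ro : P_ROOTS) (po : P_POLY)
    (ge : P_GEN) (lo : P_LOC) (cu : P_CURVE) (v1 : P_VAR1) (v2 : P_VAR2)
    (ba : P_BAS) (h : Holds T (Localization.Away (X * (X - 1) : k[X])))
    (B : Type) [CommRing B] [Algebra k B] (hB : Var k B) (x : Fin 1 → B)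
    (hx : IsTranscendenceBasis k x) : Holds T B := by
  have hBd : IsDomain B := hB.dom
  have hBs : Algebra.Smooth k B := hB.smooth
  have hBf : Algebra.FiniteType k B := inferInstance
  obtain ⟨ψ₀, hψ₀, hal₀⟩ := ba k B 0 x hx
  let c : k[X] →ₐ[k] (MvPolynomial (Fin 0) k)[X] := Polynomial.mapAlgHom (Algebra.ofId k _)
  have hc : Function.Injective c := Polynomial.map_injective _ (MvPolynomial.C_injective (Fin 0) k)
  have hcs : Function.Surjective c :=
    Polynomial.map_surjective _ (MvPolynomial.C_surjective (R := k) (Fin 0))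
  let ψ : k[X] →ₐ[k] B := ψ₀.comp c
  have hψ : Function.Injective ψ := hψ₀.comp hc
  let _ : Algebra k[X] B := ψ.toRingHom.toAlgebra
  have htow : IsScalarTower k k[X] B :=
    IsScalarTower.of_algebraMap_eq' (ψ.comp_algebraMap).symm
  have hft : Algebra.FiniteType k[X] B :=
    Algebra.FiniteType.of_restrictScalars_finiteType k _ B
  have halg : Algebra.IsAlgebraic k[X] B := ⟨fun b => by
    obtain ⟨q, hq, hq0⟩ := hal₀ b
    obtain ⟨q', hq'⟩ := Polynomial.map_surjective c.toRingHom hcs q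
    refine ⟨q', fun h0 => hq (by rw [← hq', h0, Polynomial.map_zero]), ?_⟩
    rw [← hq', eval₂_map] at hq0
    exact hq0⟩
  obtain ⟨f, hf0, hf⟩ := ge k[X] B hψ hft halg
  obtain ⟨β, U, V, N, hu, hd, hV, hU⟩ := cu b1 b2 be ro k f hf0
  obtain ⟨φ, hφ⟩ := po k β _ V N hu hd hV
  have hP : (X * (X - 1) : k[X]) ≠ 0 := mul_ne_zero X_ne_zero (by
    have := X_sub_C_ne_zero (1 : k)
    rwa [map_one] at this)
  have ha : (X * (X - 1) : k[X]).comp β ≠ 0 := by
    rw [mul_comp, X_comp, sub_comp, X_comp, one_comp]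
    refine mul_ne_zero (fun h0 => ?_) (fun h0 => ?_)
    · rw [h0, natDegree_zero] at hd
      exact lt_irrefl _ hd
    · rw [sub_eq_zero.1 h0, natDegree_one] at hd
      exact lt_irrefl _ hd
  have hVk : Var k k := by
    refine ⟨inferInstance, inferInstance⟩
  have hVD : Var k (Localization.Away (X * (X - 1) : k[X])) := v1 k _ _ hP (v2 k _ hVk)
  exact core hT lo v1 k[X] B _ ψ hψ hB hVD f _ N ha ⟨U, hU.symm⟩ hf φ hφ h

end Pool.Agent.W2helper81.BY
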