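import Pool.Agent.W2helper81.BY.Asm

set_option autoImplicit false

namespace Pool.Agent.W2helper81.BY

open Polynomial Algebra

variable {k : Type} [Field k]

theorem basis_of_trdeg (B : Type) [CommRing B] [IsDomain B] [Algebra k B] (n : ℕ)
    (h : Algebra.trdeg k B = n) : ∃ x : Fin n → B, IsTranscendenceBasis k x := by
  obtain ⟨s, hs⟩ := exists_isTranscendenceBasis k B
  have h1 : Cardinal.mk s = n := by
    rw [← h]
    exact hs.cardinalMk_eq_trdeg
  have h2 : Finite s := by
    rw [← Cardinal.lt_aleph0_iff_finite, h1]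
    exact Cardinal.natCast_lt_aleph0
  have h3 : Nat.card s = n := by
    rw [Nat.card, h1, Cardinal.toNat_natCast]
  let e : Fin n ≃ s := (Finite.equivFinOfCardEq h3).symm
  exact ⟨_, (isTranscendenceBasis_equiv e).2 hs⟩

theorem trdeg_away (A : Type) [CommRing A] [IsDomain A] [Algebra k A] (a : A) (ha : a ≠ 0) :
    Algebra.trdeg k (Localization.Away a) = Algebra.trdeg k A := by
  have hd : IsDomain (Localization.Away a) := dom_away ha
  have hinj : FaithfulSMul A (Localization.Away a) :=
    (faithfulSMul_iff_algebraMap_injective A _).2 (inj_away ha)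
  have halg : Algebra.IsAlgebraic A (Localization.Away a) := by
    refine ⟨fun z => ?_⟩
    obtain ⟨y, ⟨c, hc⟩, hz⟩ := IsLocalization.exists_mk'_eq (Submonoid.powers a) z
    have hc0 : c ≠ 0 := by
      obtain ⟨n, rfl⟩ := hc
      exact pow_ne_zero n ha
    refine ⟨C c * X - C y, ?_, ?_⟩
    · intro h0
      have h1 := congrArg (fun q => Polynomial.coeff q 1) h0
      simp at h1
      exact hc0 h1
    · rw [map_sub, map_mul, aeval_C, aeval_X, aeval_C, ← hz, sub_eq_zero, mul_comm]
      exact IsLocalization.mk'_spec _ y (⟨c, hc⟩ : Submonoid.powers a)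
  have h1 := trdeg_add_eq k A (A := Localization.Away a)
  rw [_root_.trdeg_eq_zero (R := A) (A := Localization.Away a), add_zero] at h1
  exact h1.symm

theorem trdeg_poly (A : Type) [CommRing A] [IsDomain A] [Algebra k A] :
    Algebra.trdeg k A[X] = Algebra.trdeg k A + 1 := by
  have h1 := trdeg_add_eq k A (A := A[X])
  rw [Polynomial.trdeg_of_isDomain] at h1
  exact h1.symm

theorem trdeg_punctured (m : ℕ) (g : MvPolynomial (Fin m) k) (hg : g ≠ 0) (r : ℕ)
    (s : Fin r → Localization.Away g) : Algebra.trdeg k (Punctured s) = (m + 1 : ℕ) := by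
  have hR := dom_away hg
  have h1 : Algebra.trdeg k (Punctured s) = Algebra.trdeg k (Localization.Away g)[X] :=
    trdeg_away _ _ (prod_ne s)
  rw [h1, trdeg_poly, trdeg_away _ _ hg, MvPolynomial.trdeg_of_isDomain]
  simp

end Pool.Agent.W2helper81.BY
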