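import Pool.Agent.W2helper81.BY.Stm

/-!
# Flat bundles on smooth affine varieties

`k` is an algebraic closure of `ℚ`. A smooth affine variety over `k` is given by its ring of functions `A`.
-/

set_option autoImplicit false

namespace Pool.Agent.W2helper81.BY

open Polynomial

/-- The data used about flat bundles: for each `k`-algebra `A` (in the application: `Spec A` is a smooth affine
variety) the flat bundles on `(Spec A)_ℂ` which are regular-singular at infinity, with the properties of being
semisimple, quasi-geometric, geometric, the relation of being isomorphic to a subquotient, and the inverse and direct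
images for a homomorphism `A → B` (the direct image is used for finite étale homomorphisms only). -/
structure Flat (k : Type) [Field k] where
  Fl : (A : Type) → [CommRing A] → [Algebra k A] → Type 1
  semisimple : {A : Type} → [CommRing A] → [Algebra k A] → Fl A → Prop
  quasiGeometric : {A : Type} → [CommRing A] → [Algebra k A] → Fl A → Prop
  geometric : {A : Type} → [CommRing A] → [Algebra k A] → Fl A → Prop
  subquotient : {A : Type} → [CommRing A] → [Algebra k A] → Fl A → Fl A → Prop
  pull : {A B : Type} → [CommRing A] → [Algebra k A] → [CommRing B] → [Algebra k B] →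
    (A →ₐ[k] B) → Fl A → Fl B
  push : {A B : Type} → [CommRing A] → [Algebra k A] → [CommRing B] → [Algebra k B] →
    (A →ₐ[k] B) → Fl B → Fl A

variable {k : Type} [Field k]

/-- The homomorphism `A → A_a`, the inclusion of the principal open subset `a ≠ 0`. -/
noncomputable def loc (k : Type) [Field k] (A : Type) [CommRing A] [Algebra k A] (a : A) :
    A →ₐ[k] Localization.Away a :=
  IsScalarTower.toAlgHom k A (Localization.Away a)

/-- The properties of flat bundles which are used. `A`, `B` are the rings of functions of smooth affine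
varieties. -/
structure IsFlat (T : Flat k) : Prop where
  /-- The restriction to a dense open subset of a semisimple flat bundle is semisimple. -/
  loc_ss : ∀ (A : Type) [CommRing A] [Algebra k A] (a : A), Var k A → a ≠ 0 → ∀ E : T.Fl A,
    T.semisimple E → T.semisimple (T.pull (loc k A a) E)
  /-- The restriction to a dense open subset of a quasi-geometric flat bundle is quasi-geometric. -/
  loc_qg : ∀ (A : Type) [CommRing A] [Algebra k A] (a : A), Var k A → a ≠ 0 → ∀ E : T.Fl A,
    T.quasiGeometric E → T.quasiGeometric (T.pull (loc k A a) E)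
  /-- A flat bundle is geometric if its restriction to a dense open subset is. -/
  loc_geo : ∀ (A : Type) [CommRing A] [Algebra k A] (a : A), Var k A → a ≠ 0 → ∀ E : T.Fl A,
    T.geometric (T.pull (loc k A a) E) → T.geometric E
  /-- The direct image under a finite étale map of a semisimple flat bundle is semisimple. -/
  push_ss : ∀ (A B : Type) [CommRing A] [Algebra k A] [CommRing B] [Algebra k B] (f : A →ₐ[k] B),
    Var k A → Var k B → FE f.toRingHom → ∀ E : T.Fl B, T.semisimple E → T.semisimple (T.push f E)
  /-- The direct image under a finite étale map of a quasi-geometric flat bundle is quasi-geometric. -/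
  push_qg : ∀ (A B : Type) [CommRing A] [Algebra k A] [CommRing B] [Algebra k B] (f : A →ₐ[k] B),
    Var k A → Var k B → FE f.toRingHom → ∀ E : T.Fl B, T.quasiGeometric E →
      T.quasiGeometric (T.push f E)
  /-- The inverse image under a finite étale map of a geometric flat bundle is geometric. -/
  pull_geo : ∀ (A B : Type) [CommRing A] [Algebra k A] [CommRing B] [Algebra k B] (f : A →ₐ[k] B),
    Var k A → Var k B → FE f.toRingHom → ∀ E : T.Fl A, T.geometric E → T.geometric (T.pull f E)
  /-- Subquotients of geometric flat bundles are geometric. -/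
  sq_geo : ∀ (A : Type) [CommRing A] [Algebra k A], Var k A → ∀ E E' : T.Fl A,
    T.subquotient E E' → T.geometric E' → T.geometric E
  /-- `E` is a quotient of `f^* f_* E` for finite étale `f`. -/
  unit : ∀ (A B : Type) [CommRing A] [Algebra k A] [CommRing B] [Algebra k B] (f : A →ₐ[k] B),
    Var k A → Var k B → FE f.toRingHom → ∀ E : T.Fl B, T.subquotient E (T.pull f (T.push f E))

/-- The conjecture for `Spec A`: each semisimple quasi-geometric flat bundle is geometric. -/
def Holds (T : Flat k) (A : Type) [CommRing A] [Algebra k A] : Prop :=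
  ∀ E : T.Fl A, T.semisimple E → T.quasiGeometric E → T.geometric E

theorem holds_loc {T : Flat k} (hT : IsFlat T) (A : Type) [CommRing A] [Algebra k A] (a : A)
    (hA : Var k A) (ha : a ≠ 0) (h : Holds T (Localization.Away a)) : Holds T A := fun E h1 h2 =>
  hT.loc_geo A a hA ha E (h _ (hT.loc_ss A a hA ha E h1) (hT.loc_qg A a hA ha E h2))

theorem holds_fe {T : Flat k} (hT : IsFlat T) (A B : Type) [CommRing A] [Algebra k A] [CommRing B]
    [Algebra k B] (f : A →ₐ[k] B) (hA : Var k A) (hB : Var k B) (hf : FE f.toRingHom)
    (h : Holds T A) : Holds T B := fun E h1 h2 =>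
  hT.sq_geo B hB E _ (hT.unit A B f hA hB hf E) (hT.pull_geo A B f hA hB hf _
    (h _ (hT.push_ss A B f hA hB hf E h1) (hT.push_qg A B f hA hB hf E h2)))

theorem fe_comp {A B C : Type} [CommRing A] [CommRing B] [CommRing C] {f : A →+* B} {g : B →+* C}
    (hf : FE f) (hg : FE g) : FE (g.comp f) :=
  ⟨hg.1.comp hf.1, RingHom.Etale.stableUnderComposition _ _ hf.2 hg.2⟩

theorem fe_equiv {A B : Type} [CommRing A] [CommRing B] [Algebra k A] [Algebra k B] (e : A ≃ₐ[k] B) :
    FE (e : A →ₐ[k] B).toRingHom :=
  ⟨RingHom.Finite.of_surjective _ e.surjective, RingHom.Etale.of_bijective e.bijective⟩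

/-- The line over `Spec R` without the sections `s_i`: `Spec R[X, 1 / ∏ (X - s_i)]`. -/
abbrev Punctured {R : Type} [CommRing R] {r : ℕ} (s : Fin r → R) : Type :=
  Localization.Away (∏ i, (X - C (s i)) : R[X])

theorem core {T : Flat k} (hT : IsFlat T) (hL : P_LOC) (hV : P_VAR1) (A B D : Type) [CommRing A]
    [Algebra k A] [CommRing B] [Algebra k B] [CommRing D] [Algebra k D] (ψ : A →ₐ[k] B)
    (hψ : Function.Injective ψ) (hB : Var k B) (hD : Var k D) (f a : A) (n : ℕ) (ha : a ≠ 0)
    (hfa : f ∣ a ^ n) (hf : FE (Localization.awayMap ψ.toRingHom f)) (φ : D →ₐ[k] Localization.Away a)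
    (hφ : FE φ.toRingHom) (h : Holds T D) : Holds T B := by
  have h1 : FE (Localization.awayMap ψ.toRingHom a) := hL A B ψ.toRingHom f a n hfa hf
  have hb : ψ a ≠ 0 := fun h0 => ha (hψ (by rw [h0, map_zero]))
  have hBb : Var k (Localization.Away (ψ a)) := hV k B (ψ a) hb hB
  refine holds_loc hT B (ψ a) hB hb ?_
  let χ : Localization.Away a →ₐ[k] Localization.Away (ψ a) := Localization.awayMapₐ ψ a
  have hχ : FE χ.toRingHom := h1
  exact holds_fe hT D _ (χ.comp φ) hD hBb (fe_comp hφ hχ) h

end Pool.Agent.W2helper81.BY
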